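import Mathlib
import Pool.Agent.H.MP_50682e_co.A

set_option autoImplicit false

namespace Pool.Agent.H.MP_0fee77_co

open SimpleGraph Finset

def HasCyc {V : Type} (G : SimpleGraph V) (I : Set ℕ) : Prop :=
  ∃ (v : V) (c : G.Walk v v), c.IsCycle ∧ c.length ∈ I

def Sat {V : Type} (G : SimpleGraph V) (I : Set ℕ) : Prop :=
  ¬ HasCyc G I ∧ ∀ x y, x ≠ y → ¬ G.Adj x y → HasCyc (G ⊔ edge x y) I

noncomputable def sat (n : ℕ) (I : Set ℕ) : ℕ :=
  sInf {k | ∃ G : SimpleGraph (Fin n), Sat G I ∧ G.edgeSet.ncard = k}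

theorem exists_sat (n : ℕ) (I : Set ℕ) : ∃ G : SimpleGraph (Fin n), Sat G I := by
  classical
  have h0 : ¬ HasCyc (⊥ : SimpleGraph (Fin n)) I := by
    rintro ⟨v, c, hc, -⟩
    exact isAcyclic_bot c hc
  obtain ⟨G, hG⟩ := Set.Finite.exists_maximal
    (Set.toFinite {G : SimpleGraph (Fin n) | ¬ HasCyc G I}) ⟨⊥, h0⟩
  refine ⟨G, hG.1, fun x y hne hn => ?_⟩
  by_contra hc
  have := hG.2 hc le_sup_left
  exact hn (this (Or.inr (by simp [edge_adj, hne])))

theorem open_cycle {V : Type} {G : SimpleGraph V} {I : Set ℕ} (h : Sat G I) {x y : V}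
    (hne : x ≠ y) (hn : ¬ G.Adj x y) : ∃ p : G.Walk y x, p.IsPath ∧ p.length + 1 ∈ I := by
  classical
  have tr : ∀ {a b : V} (p : (G ⊔ edge x y).Walk a b), s(x, y) ∉ p.edges →
      ∀ e ∈ p.edges, e ∈ G.edgeSet := by
    intro a b p hp e he
    have := p.edges_subset_edgeSet he
    rw [edgeSet_sup, edge_edgeSet_of_ne hne] at this
    rcases this with h | h
    · exact h
    · exact absurd (h ▸ he) hp
  obtain ⟨v, c, hc, hl⟩ := h.2 x y hne hn
  by_cases he : s(x, y) ∈ c.edges
  swap
  · exact absurd ⟨v, c.transfer G (tr c he), hc.transfer _, by simpa using hl⟩ h.1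
  have hx : x ∈ c.support := c.fst_mem_support_of_mem_edges he
  have hc1 := hc.rotate hx
  have he1 : s(x, y) ∈ (c.rotate x hx).edges := (c.rotate_edges x hx).mem_iff.2 he
  rw [← Walk.length_rotate c x hx] at hl
  generalize c.rotate x hx = c1 at hc1 he1 hl
  cases c1 with
  | nil => simp at he1
  | @cons _ w _ ha p =>
    rw [Walk.cons_isCycle_iff] at hc1
    by_cases e : w = y
    · subst e
      exact ⟨p.transfer G (tr p hc1.2), hc1.1.transfer _, by simpa using hl⟩
    · have h1 : s(x, y) ∈ p.reverse.edges := by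
        simp only [Walk.edges_cons, List.mem_cons, Sym2.eq_iff] at he1
        rcases he1 with (⟨-, h⟩ | ⟨-, h⟩) | h
        · exact absurd h.symm e
        · exact absurd h.symm hne
        · simpa using h
      have h2 := hc1.1.reverse
      have h3 : p.reverse.length + 1 ∈ I := by simpa using hl
      generalize p.reverse = q at h1 h2 h3
      have h4 := h2.eq_snd_of_mem_edges h1
      cases q with
      | nil => simp at h1
      | @cons _ z _ hb q =>
        simp only [Walk.snd_cons] at h4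
        subst h4
        rw [Walk.cons_isPath_iff] at h2
        have h5 : s(x, y) ∉ (q.concat ha.symm).edges := by
          rw [Walk.edges_concat]
          simp only [List.concat_eq_append, List.mem_append, List.mem_singleton, Sym2.eq_iff]
          rintro (h | ⟨h, -⟩ | ⟨-, h⟩)
          · exact h2.2 (q.fst_mem_support_of_mem_edges h)
          · exact ha.ne h
          · exact e h.symm
        exact ⟨(q.concat ha.symm).transfer G (tr _ h5), (h2.1.concat h2.2 _).transfer _,
          by simpa using h3⟩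

theorem lower {n : ℕ} (hn : 0 < n) {G : SimpleGraph (Fin n)} (h : Sat G (Set.Ici 4)) :
    5 * n ≤ 4 * G.edgeSet.ncard + 6 := by
  classical
  have len2 : ∀ {x z : Fin n}, G.Adj z x → ∀ q : G.Walk x z, q.IsPath → 2 ≤ q.length →
      q.length = 2 := by
    intro x z ha q hq hl
    by_contra hc
    refine h.1 ⟨z, .cons ha q, ?_, by simp; omega⟩
    rw [Walk.cons_isCycle_iff]
    refine ⟨hq, fun he => ?_⟩
    have h4 := hq.eq_snd_of_mem_edges (Sym2.eq_swap ▸ he)
    cases q with
    | nil => simp at hl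
    | cons hb q =>
      simp only [Walk.snd_cons] at h4
      subst h4
      have := Walk.isPath_iff_eq_nil.1 hq.of_cons
      subst this
      simp at hl
  have tri : ∀ {x z : Fin n}, G.Adj z x → ∀ q : G.Walk x z, q.IsPath → 2 ≤ q.length →
      ∃ w, G.Adj x w ∧ G.Adj w z := by
    intro x z ha q hq hl
    have := len2 ha q hq hl
    match q, this with
    | .cons a (.cons b .nil), _ => exact ⟨_, a, b⟩
  have uniq : ∀ {x y z z' : Fin n}, G.Adj x y → G.Adj x z → G.Adj y z → G.Adj x z' → G.Adj y z' →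
      z = z' := by
    intro x y z z' a b c d e
    by_contra hne
    have := len2 d.symm (.cons b (.cons c.symm (.cons e .nil)))
      (by simp [a.ne, b.ne, c.ne', d.ne, e.ne, hne]) (by simp)
    simp at this
  have mat : ∀ {x y z : Fin n}, G.Adj z x → G.Adj z y → x ≠ y →
      (∃ w, G.Adj x w ∧ G.Adj w z) ∨ ∃ w, G.Adj y w ∧ G.Adj w z := by
    intro x y z a b hne
    by_cases c : G.Adj y x
    · exact Or.inl ⟨y, c.symm, b.symm⟩
    obtain ⟨p, p1, p2⟩ := open_cycle h hne.symm c
    have p3 : 4 ≤ p.length + 1 := p2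
    by_cases hz : z ∈ p.support
    · have e := congrArg Walk.length (p.take_spec hz)
      rw [Walk.length_append] at e
      by_cases d : 2 ≤ (p.takeUntil z hz).length
      · exact Or.inl (tri a _ (p1.takeUntil hz) d)
      · exact Or.inr (tri b _ (p1.dropUntil hz).reverse (by simp; omega))
    · exact Or.inl (tri a _ (p1.concat hz b.symm) (by simp; omega))
  let T : Finset (Fin n × Fin n × Fin n) := univ.filter fun t =>
    t.1 < t.2.1 ∧ t.2.1 < t.2.2 ∧ G.Adj t.1 t.2.1 ∧ G.Adj t.1 t.2.2 ∧ G.Adj t.2.1 t.2.2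
  let B : SimpleGraph (Fin n) :=
    { Adj := fun x y => G.Adj x y ∧ ¬ ∃ w, G.Adj x w ∧ G.Adj w y
      symm := ⟨fun x y ⟨a, b⟩ => ⟨a.symm, fun ⟨w, c, d⟩ => b ⟨w, d.symm, c.symm⟩⟩⟩
      loopless := ⟨fun x a => G.irrefl a.1⟩ }
  have hB : 2 * B.edgeFinset.card ≤ n := by
    rw [← sum_degrees_eq_twice_card_edges]
    calc _ ≤ ∑ _v : Fin n, 1 := sum_le_sum fun z _ => by
          rw [← card_neighborFinset_eq_degree]
          refine card_le_one.2 fun x hx y hy => ?_
          rw [mem_neighborFinset] at hx hy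
          by_contra hne
          rcases mat hx.1 hy.1 hne with ⟨w, a, b⟩ | ⟨w, a, b⟩
          · exact hx.2 ⟨w, b.symm, a.symm⟩
          · exact hy.2 ⟨w, b.symm, a.symm⟩
      _ = n := by simp
  have h1 : G.edgeFinset ⊆ B.edgeFinset ∪ T.biUnion
      (fun t => {s(t.1, t.2.1), s(t.1, t.2.2), s(t.2.1, t.2.2)}) := by
    intro e he
    induction e using Sym2.ind with
    | _ x y =>
    rw [mem_edgeFinset, mem_edgeSet] at he
    by_cases c : ∃ w, G.Adj x w ∧ G.Adj w y
    swap
    · exact mem_union_left _ (by rw [mem_edgeFinset, mem_edgeSet]; exact ⟨he, c⟩)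
    obtain ⟨w, a, b⟩ := c
    refine mem_union_right _ (mem_biUnion.2 ?_)
    have he' := he.symm
    have a' := a.symm
    have b' := b.symm
    rcases lt_or_gt_of_ne he.ne with c1 | c1 <;> rcases lt_or_gt_of_ne a.ne with c2 | c2 <;>
      rcases lt_or_gt_of_ne b.ne with c3 | c3
    · exact ⟨(x, w, y), by simp [T, *], by simp⟩
    · exact ⟨(x, y, w), by simp [T, *], by simp⟩
    · exact ⟨(w, x, y), by simp [T, *], by simp⟩
    · omega
    · omega
    · exact ⟨(y, x, w), by simp [T, *], by simp⟩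
    · exact ⟨(w, y, x), by simp [T, *], by simp⟩
    · exact ⟨(y, w, x), by simp [T, *], by simp⟩
  have h2 : G.edgeFinset.card ≤ B.edgeFinset.card + T.card * 3 :=
    (card_le_card h1).trans ((card_union_le _ _).trans (Nat.add_le_add_left
      (card_biUnion_le_card_mul _ _ _ fun t _ => card_le_three) _))
  let R : Finset (Sym2 (Fin n)) := T.image fun t => s(t.1, t.2.1)
  have hR : R.card = T.card := by
    refine card_image_of_injOn ?_
    rintro ⟨a, b, c⟩ h1 ⟨a', b', c'⟩ h2 e
    simp only [T, coe_filter, mem_univ, true_and, Set.mem_setOf_eq] at h1 h2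
    simp only [Sym2.eq_iff] at e
    rcases e with ⟨rfl, rfl⟩ | ⟨rfl, rfl⟩
    · rw [uniq h1.2.2.1 h1.2.2.2.1 h1.2.2.2.2 h2.2.2.2.1 h2.2.2.2.2]
    · omega
  have hRm : ∀ x y, s(x, y) ∈ R → ∃ z, x < z ∧ y < z ∧ G.Adj x z ∧ G.Adj y z := by
    intro x y hm
    obtain ⟨⟨a, b, c⟩, h1, e⟩ := mem_image.1 hm
    simp only [T, mem_filter, mem_univ, true_and] at h1
    simp only [Sym2.eq_iff] at e
    rcases e with ⟨rfl, rfl⟩ | ⟨rfl, rfl⟩
    · exact ⟨c, by omega, by omega, h1.2.2.2.1, h1.2.2.2.2⟩
    · exact ⟨c, by omega, by omega, h1.2.2.2.2, h1.2.2.2.1⟩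
  have hRs : R ⊆ G.edgeFinset := by
    intro e he
    obtain ⟨t, h1, rfl⟩ := mem_image.1 he
    simp only [T, mem_filter, mem_univ, true_and] at h1
    simpa using h1.2.2.1
  have hadj : ∀ x y, G.Adj x y → (G.deleteEdges R).Reachable x y := by
    intro x y a
    by_cases c : s(x, y) ∈ R
    · obtain ⟨z, z1, z2, z3, z4⟩ := hRm x y c
      have d1 : (G.deleteEdges R).Adj x z := by
        rw [deleteEdges_adj]
        refine ⟨z3, fun hm => ?_⟩
        obtain ⟨w, w1, w2, w3, w4⟩ := hRm x z hm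
        have := uniq z3 a z4.symm w3 w4
        omega
      have d2 : (G.deleteEdges R).Adj y z := by
        rw [deleteEdges_adj]
        refine ⟨z4, fun hm => ?_⟩
        obtain ⟨w, w1, w2, w3, w4⟩ := hRm y z hm
        have := uniq z4 a.symm z3.symm w3 w4
        omega
      exact d1.reachable.trans d2.reachable.symm
    · exact Adj.reachable (by rw [deleteEdges_adj]; exact ⟨a, c⟩)
  have hwalk : ∀ {x y} (p : G.Walk x y), (G.deleteEdges R).Reachable x y := by
    intro x y p
    induction p with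
    | nil => rfl
    | cons a _ ih => exact (hadj _ _ a).trans ih
  have hcon : (G.deleteEdges R).Connected := by
    have : Nonempty (Fin n) := ⟨⟨0, hn⟩⟩
    refine ⟨fun x y => ?_⟩
    by_cases e : y = x
    · rw [e]
    by_cases a : G.Adj y x
    · exact (hadj _ _ a).symm
    obtain ⟨p, -⟩ := open_cycle h e a
    exact hwalk p
  have h3 := hcon.card_vert_le_card_edgeSet_add_one
  rw [Nat.card_eq_fintype_card, Nat.card_eq_fintype_card, Fintype.card_fin, ← edgeFinset_card,
    edgeFinset_deleteEdges, card_sdiff_of_subset hRs, hR] at h3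
  have h4 := card_le_card hRs
  rw [← coe_edgeFinset, Set.ncard_coe_finset]
  omega

end Pool.Agent.H.MP_0fee77_co
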